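import Mathlib

/-!
# Badly approximable targets on a one-dimensional coset (MP_f446af_nt, Q1): the answer is YES

We take `m = n = 2`, `A = diag(α, √2)` with `α = ∑_k 2^(-16^(2k+1))`, the closed subgroup
`H = 𝕋 × {0}` of `𝕋²` and the base point `x = (0, x₀)` with `x₀ = (1/2) ∑_t (3 - 2√2)^(16^t)`.
Then `A` is non-singular, the Haar probability measure of `x + H` gives full mass to `Bad_A`,
but `x` itself does not lie in `Bad_A`.

Idea.  For `η = (t, x₀)` the pair `q = (q₁, q₂)` is only dangerous at the scales `Q` where `x₀` is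
very close to some `√2 q₂` mod `1`, `|q₂| ≤ Q`.  By the choice of `x₀` (truncations of the series
are alternately congruent to `√2 N` and to `1/2 + √2 N` modulo `1`) these scales form sparse windows.
The windows lie inside the huge gaps of the Liouville number `α`, where the points `α q₁`,
`|q₁| ≤ Q`, cluster near the points `j / 2^(a_k)`, so only a tiny set of `t` is dangerous in each window.
-/

set_option autoImplicit false

namespace Pool.Agent.Results.MP_f446af_nt.OneDimCoset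

open MeasureTheory Filter Topology

/-! ## Definitions used in the statement -/

/-- The torus `𝕋^m = ℝ^m / ℤ^m`, realised as the product of `m` circles `ℝ/ℤ`. Its norm is the
sup norm of the circle norms, so for `x ∈ ℝ^m` the norm of the class of `x` is the sup-norm distance
from `x` to the nearest point of `ℤ^m`. -/
abbrev Torus (m : ℕ) : Type := Fin m → UnitAddCircle

/-- The class in `𝕋^m` of a vector of `ℝ^m`. -/
def toTorus {m : ℕ} (x : Fin m → ℝ) : Torus m := fun i => (x i : UnitAddCircle)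

/-- The class of `A q` in `𝕋^m`, for `q ∈ ℤ^n`. -/
noncomputable def orbit {m n : ℕ} (A : Matrix (Fin m) (Fin n) ℝ) (q : Fin n → ℤ) : Torus m :=
  toTorus (A.mulVec (fun j => (q j : ℝ)))

/-- `Bad_A`: the targets `η ∈ 𝕋^m` with `liminf_{‖q‖ → ∞} ‖q‖^{n/m} ⟨A q - η⟩ > 0`
(the liminf is taken in `[0,∞]`). -/
noncomputable def Bad {m n : ℕ} (A : Matrix (Fin m) (Fin n) ℝ) : Set (Torus m) :=
  {η | 0 < liminf (fun q : Fin n → ℤ => ENNReal.ofReal (‖q‖ ^ ((n : ℝ) / (m : ℝ)) * ‖orbit A q - η‖))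
    (comap (fun q : Fin n → ℤ => ‖q‖) atTop)}

/-- `A` is singular: for every `ε > 0` there is `T₀` such that for every `T ≥ T₀` some `q ∈ ℤ^n`
with `0 < ‖q‖ ≤ T` satisfies `⟨A q⟩ ≤ ε T^{-n/m}`. -/
def IsSingular {m n : ℕ} (A : Matrix (Fin m) (Fin n) ℝ) : Prop :=
  ∀ ε : ℝ, 0 < ε → ∃ T₀ : ℝ, ∀ T : ℝ, T₀ ≤ T →
    ∃ q : Fin n → ℤ, 0 < ‖q‖ ∧ ‖q‖ ≤ T ∧ ‖orbit A q‖ ≤ ε * T ^ (-((n : ℝ) / (m : ℝ)))

/-- The Lie algebra of a subgroup `H` of `𝕋^m`: all `v ∈ ℝ^m` whose one-parameter subgroup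
`s ↦ s v mod ℤ^m` stays in `H`. -/
def lieAlg {m : ℕ} (H : AddSubgroup (Torus m)) : Submodule ℝ (Fin m → ℝ) where
  carrier := {v | ∀ s : ℝ, toTorus (s • v) ∈ H}
  add_mem' := by
    intro a b ha hb s
    have : toTorus (s • (a + b)) = toTorus (s • a) + toTorus (s • b) := by
      ext i; simp [toTorus, mul_add]
    rw [this]
    exact H.add_mem (ha s) (hb s)
  zero_mem' := by
    intro s
    have : toTorus (s • (0 : Fin m → ℝ)) = 0 := by
      ext i; simp [toTorus]
    rw [this]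
    exact H.zero_mem
  smul_mem' := by
    intro c v hv s
    have := hv (s * c)
    rwa [mul_smul] at this

/-- The dimension of a (closed) subgroup of `𝕋^m`, namely the real dimension of its Lie algebra. -/
noncomputable def dimSubgroup {m : ℕ} (H : AddSubgroup (Torus m)) : ℕ := Module.finrank ℝ (lieAlg H)

/-- `μ` is the algebraic measure on the coset `x + H`: `H` is a closed subgroup of `𝕋^m` and `μ` is
the Haar probability measure on `x + H`, i.e. the image under `h ↦ x + h` of the Haar probability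
measure of the compact group `H`. -/
def IsAlgebraicMeasureOn {m : ℕ} (μ : Measure (Torus m)) (x : Torus m) (H : AddSubgroup (Torus m)) :
    Prop :=
  IsClosed (H : Set (Torus m)) ∧
    ∃ ν : Measure H, ν.IsAddHaarMeasure ∧ IsProbabilityMeasure ν ∧
      μ = ν.map (fun h : H => x + (h : Torus m))

/-! ## Arithmetic preparations -/

/-! ### fast series -/

/-- tail estimate for `∑ r^(f n)` with `f` strictly increasing and `0 < r ≤ 1/2`. -/
lemma series_tail {r : ℝ} (hr0 : 0 < r) (hr1 : r ≤ 1/2) {f : ℕ → ℕ} (hf : StrictMono f) (N : ℕ) :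
    Summable (fun n => r ^ (f n)) ∧
    0 ≤ (∑' n, r ^ (f n)) - ∑ n ∈ Finset.range N, r ^ (f n) ∧
    (∑' n, r ^ (f n)) - ∑ n ∈ Finset.range N, r ^ (f n) ≤ 2 * r ^ (f N) := by
  have hr1' : r < 1 := by linarith
  have hsum : Summable (fun n => r ^ (f n)) := by
    apply Summable.of_nonneg_of_le (fun n => by positivity) (fun n => ?_) (summable_geometric_of_lt_one hr0.le hr1')
    exact pow_le_pow_of_le_one hr0.le hr1'.le (hf.id_le n)
  have htail : (∑' n, r ^ (f n)) - ∑ n ∈ Finset.range N, r ^ (f n) = ∑' n, r ^ (f (n + N)) := by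
    rw [← hsum.sum_add_tsum_nat_add N]
    ring
  have hsum' : Summable (fun n => r ^ (f (n+N))) := (summable_nat_add_iff N).mpr hsum
  have hgeo : Summable (fun n : ℕ => r ^ (f N) * r ^ n) := (summable_geometric_of_lt_one hr0.le hr1').mul_left _
  refine ⟨hsum, ?_, ?_⟩
  · rw [htail]
    exact tsum_nonneg (fun n => by positivity)
  · rw [htail]
    have hle : ∀ n, r ^ (f (n+N)) ≤ r ^ (f N) * r ^ n := by
      intro n
      rw [← pow_add]
      apply pow_le_pow_of_le_one hr0.le hr1'.le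
      induction n with
      | zero => simp
      | succ n ih =>
        have := hf (show n + N < n + 1 + N by omega)
        omega
    calc ∑' n, r ^ (f (n + N)) ≤ ∑' n : ℕ, r ^ (f N) * r ^ n := hsum'.tsum_le_tsum hle hgeo
      _ = r ^ (f N) * (1 - r)⁻¹ := by rw [tsum_mul_left, tsum_geometric_of_lt_one hr0.le hr1']
      _ ≤ r ^ (f N) * 2 := by
        apply mul_le_mul_of_nonneg_left _ (by positivity)
        rw [inv_le_comm₀ (by linarith) (by norm_num)]
        linarith
      _ = 2 * r ^ (f N) := by ring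

/-! ### the quadratic number `3 - 2√2` -/

/-- `ab e = (a,b)` with `(3-2√2)^e = a - b √2`. -/
def ab : ℕ → ℤ × ℤ
  | 0 => (1, 0)
  | (e+1) => (3 * (ab e).1 + 4 * (ab e).2, 2 * (ab e).1 + 3 * (ab e).2)

noncomputable def om : ℝ := 3 - 2 * √2

lemma sqrt2_bounds : 1.41421 < √2 ∧ √2 < 1.41422 := by
  constructor
  · rw [Real.lt_sqrt (by norm_num)]; norm_num
  · rw [Real.sqrt_lt' (by norm_num)]; norm_num

lemma om_pos : 0 < om := by
  have := sqrt2_bounds.2
  unfold om; linarith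

lemma om_lt : om ≤ 1/4 := by
  have := sqrt2_bounds.1
  unfold om; linarith

lemma om_pow (e : ℕ) : om ^ e = ((ab e).1 : ℝ) - ((ab e).2 : ℝ) * √2 := by
  induction e with
  | zero => simp [ab]
  | succ e ih =>
    rw [pow_succ, ih, ab, om]
    push_cast
    have h2 : √2 * √2 = 2 := Real.mul_self_sqrt (by norm_num)
    linear_combination (2 * ((ab e).2 : ℝ)) * h2

lemma ab_parity (e : ℕ) : (ab e).1 % 2 = 1 ∧ (ab e).2 % 2 = 0 := by
  induction e with
  | zero => simp [ab]
  | succ e ih =>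
    simp only [ab]
    omega

lemma ab_bounds (e : ℕ) : 1 ≤ (ab e).1 ∧ (e : ℤ) ≤ (ab e).2 ∧ (ab e).1 ≤ 8^e ∧ (ab e).2 ≤ 8^e := by
  induction e with
  | zero => simp [ab]
  | succ e ih =>
    simp only [ab]
    rw [pow_succ]
    push_cast
    omega

/-- sums of the coefficients -/
def AA (s : ℕ) : ℤ := ∑ t ∈ Finset.range s, (ab (16^t)).1
def BB (s : ℕ) : ℤ := ∑ t ∈ Finset.range s, (ab (16^t)).2

noncomputable def x0 : ℝ := (1/2) * ∑' t : ℕ, om ^ (16^t)

lemma strictMono_16 : StrictMono (fun t : ℕ => 16^t) := pow_right_strictMono₀ (by norm_num)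

lemma x0_approx (s : ℕ) :
    0 ≤ x0 - (1/2) * ((AA s : ℝ) - (BB s : ℝ) * √2) ∧
    x0 - (1/2) * ((AA s : ℝ) - (BB s : ℝ) * √2) ≤ (1/4:ℝ)^(16^s) := by
  obtain ⟨_, h1, h2⟩ := series_tail om_pos (by have := om_lt; linarith : om ≤ 1/2) strictMono_16 s
  have e : ∑ n ∈ Finset.range s, om ^ (16^n) = (AA s : ℝ) - (BB s : ℝ) * √2 := by
    unfold AA BB
    push_cast
    rw [Finset.sum_mul, ← Finset.sum_sub_distrib]
    apply Finset.sum_congr rfl
    intro n _
    exact om_pow _
  rw [e] at h1 h2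
  have h3 : om ^ (16^s) ≤ (1/4:ℝ)^(16^s) := pow_le_pow_left₀ om_pos.le om_lt _
  unfold x0
  constructor <;> linarith

lemma AA_parity (s : ℕ) : (AA s) % 2 = (s : ℤ) % 2 := by
  induction s with
  | zero => simp [AA]
  | succ s ih =>
    have := (ab_parity (16^s)).1
    unfold AA at ih ⊢
    rw [Finset.sum_range_succ]
    push_cast
    omega

lemma BB_parity (s : ℕ) : (BB s) % 2 = 0 := by
  induction s with
  | zero => simp [BB]
  | succ s ih =>
    have := (ab_parity (16^s)).2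
    unfold BB at ih ⊢
    rw [Finset.sum_range_succ]
    omega

lemma BB_nonneg (s : ℕ) : 0 ≤ BB s := by
  unfold BB
  apply Finset.sum_nonneg
  intro t _
  have := (ab_bounds (16^t)).2.1
  push_cast at this
  have h : (0:ℤ) ≤ 16^t := by positivity
  omega

lemma BB_le (s : ℕ) : BB (s+1) ≤ 2 * 8^(16^s) := by
  induction s with
  | zero =>
    have := (ab_bounds 1).2.2.2
    simp [BB] at this ⊢
    omega
  | succ s ih =>
    unfold BB at ih ⊢
    rw [Finset.sum_range_succ]
    have h1 := (ab_bounds (16^(s+1))).2.2.2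
    have h2 : (2:ℤ) * 8^(16^s) ≤ 8^(16^(s+1)) := by
      have e : 16^(s+1) = 16^s + 15 * 16^s := by ring
      rw [e, pow_add, mul_comm]
      apply mul_le_mul_of_nonneg_left _ (by positivity)
      have : (8:ℤ)^1 ≤ 8^(15*16^s) := by
        apply pow_le_pow_right₀ (by norm_num)
        have : 0 < 16^s := by positivity
        omega
      omega
    omega

lemma BB_ge (s : ℕ) : (s : ℤ) ≤ BB s := by
  induction s with
  | zero => simp [BB]
  | succ s ih =>
    unfold BB at ih ⊢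
    rw [Finset.sum_range_succ]
    have h1 := (ab_bounds (16^s)).2.1
    push_cast at h1 ⊢
    have h : (1:ℤ) ≤ 16^s := one_le_pow₀ (by norm_num)
    omega

/-- integrality of the norm -/
lemma norm_lower {M K : ℤ} (h : M^2 - 2*K^2 ≠ 0) : 1 / (1 + 3*|(K:ℝ)|) ≤ |(M:ℝ) - K * √2| := by
  have hs := sqrt2_bounds
  have hK : 0 ≤ |(K:ℝ)| := abs_nonneg _
  rcases le_or_gt 1 |(M:ℝ) - K * √2| with h1 | h1
  · refine le_trans ?_ h1
    rw [div_le_one (by positivity)]
    linarith
  · have h2 : 1 ≤ |((M:ℝ) - K * √2) * ((M:ℝ) + K * √2)| := by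
      have e : ((M:ℝ) - K * √2) * ((M:ℝ) + K * √2) = ((M^2 - 2*K^2 : ℤ) : ℝ) := by
        push_cast
        have h2 : √2 * √2 = 2 := Real.mul_self_sqrt (by norm_num)
        linear_combination (-(K:ℝ)^2) * h2
      rw [e, ← Int.cast_abs]
      have : 1 ≤ |M^2 - 2*K^2| := Int.one_le_abs h
      exact_mod_cast this
    rw [abs_mul] at h2
    have h3 : |(M:ℝ) + K * √2| ≤ 1 + 3*|(K:ℝ)| := by
      have e : (M:ℝ) + K * √2 = (M - K * √2) + 2 * (K * √2) := by ring
      rw [e]
      refine (abs_add_le _ _).trans ?_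
      have : |2 * ((K:ℝ) * √2)| = 2 * √2 * |(K:ℝ)| := by
        rw [abs_mul, abs_mul, abs_of_pos (by norm_num : (0:ℝ) < 2), abs_of_pos (by linarith : 0 < √2)]
        ring
      rw [this]
      nlinarith
    rw [div_le_iff₀ (by positivity)]
    calc 1 ≤ |(M:ℝ) - K * √2| * |(M:ℝ) + K * √2| := h2
      _ ≤ _ := mul_le_mul_of_nonneg_left h3 (abs_nonneg _)

/-- `√2` is badly approximable -/
lemma sqrt2_bad {q : ℤ} (hq : q ≠ 0) (p : ℤ) : 1 / (1 + 3*|(q:ℝ)|) ≤ |q * √2 - p| := by
  have : p^2 - 2*q^2 ≠ 0 := by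
    intro h
    have h1 : p^2 = 2*q^2 := by omega
    have h2 : Irrational (√2) := irrational_sqrt_two
    apply h2
    refine ⟨(|p| : ℤ) / (|q| : ℤ), ?_⟩
    have hq' : (0:ℝ) < |(q:ℝ)| := abs_pos.mpr (by exact_mod_cast hq)
    push_cast
    have h3 : ((|(p:ℝ)|) / |(q:ℝ)|)^2 = 2 := by
      rw [div_pow, sq_abs, sq_abs, div_eq_iff (by positivity)]
      exact_mod_cast h1
    have := Real.sqrt_sq (by positivity : 0 ≤ (|(p:ℝ)|) / |(q:ℝ)|)
    rw [h3] at this
    exact this.symm
  rw [abs_sub_comm]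
  exact norm_lower this

/-- safe range estimate (odd stage) -/
lemma safe {k : ℕ} (q p : ℤ) {Q : ℝ} (hq : |(q:ℝ)| ≤ Q) (h1 : (8:ℝ)^(16^(2*k)) ≤ Q)
    (h2 : Q ≤ (4:ℝ)^(16^(2*k+1))/80) : 1/(40*Q) ≤ |q * √2 - x0 - p| := by
  obtain ⟨hx1, hx2⟩ := x0_approx (2*k+1)
  set A := AA (2*k+1) with hA
  set B := BB (2*k+1) with hB
  have hApar : A % 2 = 1 := by
    rw [hA, AA_parity]; push_cast; omega
  have hBpar : B % 2 = 0 := BB_parity _
  have hB0 : 0 ≤ B := BB_nonneg _
  have hB1 : B ≤ 2 * 8^(16^(2*k)) := BB_le _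
  have hB1' : (B:ℝ) ≤ 2 * (8:ℝ)^(16^(2*k)) := by exact_mod_cast hB1
  have hB0' : (0:ℝ) ≤ (B:ℝ) := by exact_mod_cast hB0
  have hQ1 : 1 ≤ Q := by
    refine le_trans ?_ h1
    exact one_le_pow₀ (by norm_num)
  -- M, K
  have hne : (A + 2*p)^2 - 2*(B+2*q)^2 ≠ 0 := by
    intro h
    have h3 : ((A + 2*p)^2) % 2 = 1 := by
      have : (A + 2*p) % 2 = 1 := by omega
      have h4 : Odd (A+2*p) := Int.odd_iff.mpr this
      exact Int.odd_iff.mp (h4.pow)
    omega
  have hn := norm_lower hne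
  push_cast at hn
  have e : (q:ℝ) * √2 - x0 - p = -((1/2) * (((A:ℝ) + 2*p) - (B + 2*q) * √2)) - (x0 - (1/2) * ((A:ℝ) - B * √2)) := by
    ring
  have hKle : |(B:ℝ) + 2 * q| ≤ 4 * Q := by
    refine (abs_add_le _ _).trans ?_
    rw [abs_mul, abs_of_nonneg hB0', abs_of_pos (by norm_num : (0:ℝ) < 2)]
    linarith
  have hlow : 1/(26*Q) ≤ |(1/2) * (((A:ℝ) + 2*p) - (B + 2*q) * √2)| := by
    rw [abs_mul, abs_of_pos (by norm_num : (0:ℝ) < 1/2)]
    have h5 : 1/(13*Q) ≤ 1 / (1 + 3*|(B:ℝ) + 2 * q|) := by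
      apply one_div_le_one_div_of_le (by positivity)
      linarith
    have h6 : 1/(26*Q) = (1/2) * (1/(13*Q)) := by field_simp; norm_num
    rw [h6]
    apply mul_le_mul_of_nonneg_left _ (by norm_num)
    linarith
  have hsmall : |x0 - (1/2) * ((A:ℝ) - B * √2)| ≤ 1/(80*Q) := by
    rw [abs_of_nonneg hx1]
    refine hx2.trans ?_
    rw [one_div, inv_pow, ← one_div]
    apply one_div_le_one_div_of_le (by positivity)
    linarith
  have hfin : 1/(40*Q) ≤ 1/(26*Q) - 1/(80*Q) := by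
    rw [div_sub_div _ _ (by positivity) (by positivity), div_le_div_iff₀ (by positivity) (by positivity)]
    nlinarith [sq_nonneg Q, mul_pos (by linarith : (0:ℝ) < Q) (by linarith : (0:ℝ) < Q), pow_pos (by linarith : (0:ℝ) < Q) 3]
  rw [e]
  have h7 := abs_sub_abs_le_abs_sub (-((1/2) * (((A:ℝ) + 2*p) - (B + 2*q) * √2))) (x0 - (1/2) * ((A:ℝ) - B * √2))
  rw [abs_neg] at h7
  linarith

/-! ### the Liouville-type number -/

/-- exponents -/
def aa (k : ℕ) : ℕ := 16^(2*k+1)

lemma strictMono_aa : StrictMono aa := by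
  intro i j hij
  unfold aa
  exact strictMono_16 (by omega)

noncomputable def al : ℝ := ∑' k, (1/2:ℝ)^(aa k)

/-- `PP k / 2^(aa k)` is the `k`-th truncated sum -/
def PP (k : ℕ) : ℤ := ∑ j ∈ Finset.range (k+1), 2^(aa k - aa j)

lemma PP_odd (k : ℕ) : (PP k) % 2 = 1 := by
  unfold PP
  rw [Finset.sum_range_succ]
  have : ∀ j ∈ Finset.range k, (2:ℤ) ∣ 2^(aa k - aa j) := by
    intro j hj
    rw [Finset.mem_range] at hj
    have := strictMono_aa hj
    apply dvd_pow_self
    omega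
  have h := Finset.dvd_sum this
  simp
  omega

lemma PP_eq (k : ℕ) : (PP k : ℝ) = 2^(aa k) * ∑ j ∈ Finset.range (k+1), (1/2:ℝ)^(aa j) := by
  unfold PP
  push_cast
  rw [Finset.mul_sum]
  apply Finset.sum_congr rfl
  intro j hj
  rw [Finset.mem_range] at hj
  have : aa j ≤ aa k := strictMono_aa.monotone (by omega)
  have e : aa k = (aa k - aa j) + aa j := by omega
  conv_rhs => rw [e]
  rw [pow_add, mul_assoc, ← mul_pow]
  simp

/-- `|2^(a_k) α - P_k| ≤ 2 · 2^(a_k) / 2^(a_{k+1})` -/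
lemma al_approx (k : ℕ) : 0 ≤ 2^(aa k) * al - PP k ∧ 2^(aa k) * al - PP k ≤ 2^(aa k) * (2 * (1/2:ℝ)^(aa (k+1))) := by
  obtain ⟨_, h1, h2⟩ := series_tail (by norm_num : (0:ℝ) < 1/2) le_rfl strictMono_aa (k+1)
  have e : 2^(aa k) * al - PP k = 2^(aa k) * ((∑' n, (1/2:ℝ)^(aa n)) - ∑ j ∈ Finset.range (k+1), (1/2:ℝ)^(aa j)) := by
    rw [PP_eq, al]; ring
  rw [e]
  constructor
  · exact mul_nonneg (by positivity) h1
  · exact mul_le_mul_of_nonneg_left h2 (by positivity)

/-! ### Preparations -/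

/-- the matrix -/
noncomputable def AM : Matrix (Fin 2) (Fin 2) ℝ := !![al, 0; 0, √2]

lemma orbit_zero (q : Fin 2 → ℤ) : orbit AM q 0 = ((al * q 0 : ℝ) : UnitAddCircle) := by
  simp [orbit, toTorus, AM, Matrix.mulVec, dotProduct, Fin.sum_univ_two]

lemma orbit_one (q : Fin 2 → ℤ) : orbit AM q 1 = ((q 1 * √2 : ℝ) : UnitAddCircle) := by
  simp [orbit, toTorus, AM, Matrix.mulVec, dotProduct, Fin.sum_univ_two, mul_comm]

lemma le_circle_norm {x c : ℝ} (h : ∀ z : ℤ, c ≤ |x - z|) : c ≤ ‖(x : UnitAddCircle)‖ := by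
  rw [UnitAddCircle.norm_eq]
  exact h _

lemma circle_norm_le (x : ℝ) (z : ℤ) : ‖(x : UnitAddCircle)‖ ≤ |x - z| := by
  rw [UnitAddCircle.norm_eq]
  exact round_le x z

/-- the window estimate -/
lemma window {k : ℕ} {t : UnitAddCircle} (ht : 4 * (1/2:ℝ)^(aa k) ≤ ‖(2^(aa k) : ℕ) • t‖) {q : ℤ}
    (hq : |(q:ℝ)| ≤ (8:ℝ)^(16^(2*k+2))) : 2 * (1/4:ℝ)^(aa k) ≤ ‖((al * q : ℝ) : UnitAddCircle) - t‖ := by
  by_contra hcon
  push Not at hcon
  set a := aa k with ha
  have haa : 16^(2*k+2) = 16 * a := by rw [ha, aa]; ring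
  have haa1 : aa (k+1) = 256 * a := by rw [ha, aa, aa]; ring
  obtain ⟨h1, h2⟩ := al_approx k
  rw [← ha, haa1] at h2
  rw [← ha] at h1
  -- norm of D α
  have hDa : ‖((2^a * al : ℝ) : UnitAddCircle)‖ ≤ 2^a * (2 * (1/2:ℝ)^(256*a)) := by
    refine (circle_norm_le _ (PP k)).trans ?_
    rw [abs_of_nonneg h1]
    exact h2
  have hDaq : ‖(2^a : ℕ) • ((al * q : ℝ) : UnitAddCircle)‖ ≤ |(q:ℝ)| * (2^a * (2 * (1/2:ℝ)^(256*a))) := by
    have e : (2^a : ℕ) • ((al * q : ℝ) : UnitAddCircle) = q • ((2^a * al : ℝ) : UnitAddCircle) := by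
      rw [← AddCircle.coe_nsmul, ← AddCircle.coe_zsmul]
      congr 1
      simp
      ring
    rw [e]
    refine (norm_zsmul_le _ _).trans ?_
    rw [Int.norm_eq_abs]
    exact mul_le_mul_of_nonneg_left hDa (abs_nonneg _)
  have hsub : ‖(2^a : ℕ) • (((al * q : ℝ) : UnitAddCircle) - t)‖ ≤ 2^a * (2 * (1/4:ℝ)^a) := by
    refine (norm_nsmul_le).trans ?_
    push_cast
    exact mul_le_mul_of_nonneg_left hcon.le (by positivity)
  have htri : ‖(2^a : ℕ) • t‖ ≤ ‖(2^a : ℕ) • ((al * q : ℝ) : UnitAddCircle)‖ + ‖(2^a : ℕ) • (((al * q : ℝ) : UnitAddCircle) - t)‖ := by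
    have e : (2^a : ℕ) • t = (2^a : ℕ) • ((al * q : ℝ) : UnitAddCircle) - (2^a : ℕ) • (((al * q : ℝ) : UnitAddCircle) - t) := by
      rw [smul_sub]; abel
    conv_lhs => rw [e]
    exact norm_sub_le _ _
  have hA : 2^a * (2 * (1/4:ℝ)^a) = 2 * (1/2:ℝ)^a := by
    have : (1/4:ℝ)^a = (1/2)^a * (1/2)^a := by rw [← mul_pow]; norm_num
    rw [this]
    have h3 : (2:ℝ)^a * (1/2)^a = 1 := by rw [← mul_pow]; norm_num
    linear_combination (2 * (1/2:ℝ)^a) * h3
  have hB : (8:ℝ)^(16*a) * (2^a * (2 * (1/2:ℝ)^(256*a))) < 2 * (1/2:ℝ)^a := by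
    have h8 : (8:ℝ)^(16*a) = 2^(48*a) := by
      rw [show (8:ℝ) = 2^3 by norm_num, ← pow_mul]; congr 1; ring
    have hsplit : (1/2:ℝ)^(256*a) = (1/2)^(48*a) * (1/2)^a * (1/2)^(207*a) := by
      rw [← pow_add, ← pow_add]; congr 1; ring
    have h3 : (2:ℝ)^a * (1/2)^a = 1 := by rw [← mul_pow]; norm_num
    have h4 : (2:ℝ)^(48*a) * (1/2)^(48*a) = 1 := by rw [← mul_pow]; norm_num
    have e : (8:ℝ)^(16*a) * (2^a * (2 * (1/2:ℝ)^(256*a))) = 2 * (1/2:ℝ)^(207*a) := by
      rw [h8, hsplit]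
      linear_combination (2 * (1/2:ℝ)^(207*a) * (2:ℝ)^a * (1/2)^a) * h4 + (2 * (1/2:ℝ)^(207*a)) * h3
    rw [e]
    apply mul_lt_mul_of_pos_left _ (by norm_num)
    apply pow_lt_pow_right_of_lt_one₀ (by norm_num) (by norm_num)
    have : 0 < a := by rw [ha, aa]; positivity
    omega
  rw [haa] at hq
  have hC : |(q:ℝ)| * (2^a * (2 * (1/2:ℝ)^(256*a))) ≤ (8:ℝ)^(16*a) * (2^a * (2 * (1/2:ℝ)^(256*a))) :=
    mul_le_mul_of_nonneg_right hq (by positivity)
  linarith

/-- the sets `G_k` have summable measure, so almost every `t` is eventually outside -/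
lemma ae_good : ∀ᵐ t : UnitAddCircle, ∀ᶠ k in atTop, 4 * (1/2:ℝ)^(aa k) ≤ ‖(2^(aa k) : ℕ) • t‖ := by
  have hmeas : ∀ k, volume {t : UnitAddCircle | ‖(2^(aa k) : ℕ) • t‖ < 4 * (1/2:ℝ)^(aa k)} ≤ ENNReal.ofReal (8 * (1/2:ℝ)^k) := by
    intro k
    have hk : 1 < 2^(aa k) := by
      apply Nat.one_lt_two_pow
      have : 0 < aa k := by unfold aa; positivity
      omega
    have hmp := (AddCircle.ergodic_nsmul (T := 1) hk).toMeasurePreserving
    have e : {t : UnitAddCircle | ‖(2^(aa k) : ℕ) • t‖ < 4 * (1/2:ℝ)^(aa k)} ⊆ (fun y : UnitAddCircle => (2^(aa k) : ℕ) • y) ⁻¹' (Metric.closedBall 0 (4 * (1/2:ℝ)^(aa k))) := by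
      intro t ht
      simp only [Set.mem_setOf_eq] at ht
      simp only [Set.mem_preimage, mem_closedBall_zero_iff]
      exact ht.le
    refine (measure_mono e).trans ?_
    rw [hmp.measure_preimage measurableSet_closedBall.nullMeasurableSet, AddCircle.volume_closedBall]
    apply ENNReal.ofReal_le_ofReal
    refine (min_le_right _ _).trans ?_
    have : (1/2:ℝ)^(aa k) ≤ (1/2)^k := pow_le_pow_of_le_one (by norm_num) (by norm_num) (strictMono_aa.id_le k)
    linarith
  have hsum : ∑' k, volume {t : UnitAddCircle | ‖(2^(aa k) : ℕ) • t‖ < 4 * (1/2:ℝ)^(aa k)} ≠ ⊤ := by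
    refine ne_top_of_le_ne_top ?_ (ENNReal.tsum_le_tsum hmeas)
    have hs : Summable (fun k : ℕ => 8 * (1/2:ℝ)^k) := summable_geometric_two.mul_left 8
    rw [← ENNReal.ofReal_tsum_of_nonneg (fun k => by positivity) hs]
    exact ENNReal.ofReal_ne_top
  have h := ae_eventually_notMem hsum
  filter_upwards [h] with t ht
  filter_upwards [ht] with k hk
  simp only [Set.mem_setOf_eq, not_lt] at hk
  exact hk

/-- characterization of `Bad` for the `2 × 2` case -/
lemma mem_Bad_of {A : Matrix (Fin 2) (Fin 2) ℝ} {η : Torus 2} {c R : ℝ} (hc : 0 < c)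
    (h : ∀ q : Fin 2 → ℤ, R ≤ ‖q‖ → c ≤ ‖q‖ * ‖orbit A q - η‖) : η ∈ Bad A := by
  rw [Bad, Set.mem_ofPred_eq]
  have h1 : ENNReal.ofReal c ≤ liminf (fun q : Fin 2 → ℤ => ENNReal.ofReal (‖q‖ ^ (((2:ℕ) : ℝ) / ((2:ℕ) : ℝ)) * ‖orbit A q - η‖))
    (comap (fun q : Fin 2 → ℤ => ‖q‖) atTop) := by
    apply le_liminf_of_le
    · isBoundedDefault
    · rw [Filter.eventually_comap]
      filter_upwards [eventually_ge_atTop R] with x hx q hq
      apply ENNReal.ofReal_le_ofReal
      have e : (((2:ℕ) : ℝ) / ((2:ℕ) : ℝ)) = 1 := by norm_num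
      rw [e, Real.rpow_one]
      exact h q (by rw [hq]; exact hx)
  exact lt_of_lt_of_le (ENNReal.ofReal_pos.mpr hc) h1

lemma not_mem_Bad_of {A : Matrix (Fin 2) (Fin 2) ℝ} {η : Torus 2}
    (h : ∀ c > 0, ∀ R : ℝ, ∃ q : Fin 2 → ℤ, R ≤ ‖q‖ ∧ ‖q‖ * ‖orbit A q - η‖ ≤ c) : η ∉ Bad A := by
  intro hmem
  have hmem' : 0 < liminf (fun q : Fin 2 → ℤ => ENNReal.ofReal (‖q‖ ^ (((2:ℕ) : ℝ) / ((2:ℕ) : ℝ)) * ‖orbit A q - η‖))
    (comap (fun q : Fin 2 → ℤ => ‖q‖) atTop) := hmem
  obtain ⟨b, hb0, hb⟩ := exists_between hmem'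
  have hev := eventually_lt_of_lt_liminf hb
  rw [Filter.eventually_comap, Filter.eventually_atTop] at hev
  obtain ⟨R, hR⟩ := hev
  have hbtop : b ≠ ⊤ := ne_top_of_lt hb
  obtain ⟨q, hq1, hq2⟩ := h b.toReal (ENNReal.toReal_pos hb0.ne' hbtop) R
  have h2 := hR ‖q‖ hq1 q rfl
  have e : (((2:ℕ) : ℝ) / ((2:ℕ) : ℝ)) = 1 := by norm_num
  rw [e, Real.rpow_one] at h2
  have h3 : ENNReal.ofReal (‖q‖ * ‖orbit A q - η‖) ≤ b := by
    rw [← ENNReal.ofReal_toReal hbtop]
    exact ENNReal.ofReal_le_ofReal hq2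
  exact absurd h2 (not_lt.mpr h3)

/-- the base point -/
noncomputable def xbase : Torus 2 := ![0, (x0 : UnitAddCircle)]

lemma norm_q0 (q : Fin 2 → ℤ) : |(q 0 : ℝ)| ≤ ‖q‖ := by
  have := norm_le_pi_norm q 0
  rwa [Int.norm_eq_abs] at this

lemma norm_q1 (q : Fin 2 → ℤ) : |(q 1 : ℝ)| ≤ ‖q‖ := by
  have := norm_le_pi_norm q 1
  rwa [Int.norm_eq_abs] at this

/-- good targets are badly approximable -/
lemma good_mem_Bad {η : Torus 2} (h1 : η 1 = (x0 : UnitAddCircle))
    (h0 : ∀ᶠ k in atTop, 4 * (1/2:ℝ)^(aa k) ≤ ‖(2^(aa k) : ℕ) • (η 0)‖) : η ∈ Bad AM := by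
  rw [eventually_atTop] at h0
  obtain ⟨K0, hK0⟩ := h0
  apply mem_Bad_of (c := 1/40) (R := (8:ℝ)^(16^(2*K0))) (by norm_num)
  intro q hq
  set Q : ℝ := ‖q‖ with hQ
  have hQ1 : 1 ≤ Q := le_trans (one_le_pow₀ (by norm_num)) hq
  -- find the stage
  have hex : ∃ n : ℕ, Q < (8:ℝ)^(16^(2*n)) := by
    obtain ⟨n, hn⟩ := pow_unbounded_of_one_lt Q (by norm_num : (1:ℝ) < 8)
    refine ⟨n, lt_of_lt_of_le hn ?_⟩
    apply pow_le_pow_right₀ (by norm_num)
    calc n ≤ 2*n := by omega
      _ ≤ 16^(2*n) := (Nat.lt_pow_self (by norm_num)).le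
  classical
  let N := Nat.find hex
  have hN : Q < (8:ℝ)^(16^(2*N)) := Nat.find_spec hex
  have hNmin : ∀ m, m < N → (8:ℝ)^(16^(2*m)) ≤ Q := by
    intro m hm
    have := Nat.find_min hex hm
    push Not at this
    exact this
  have hNK : K0 < N := by
    by_contra hcon
    push Not at hcon
    have : (8:ℝ)^(16^(2*N)) ≤ (8:ℝ)^(16^(2*K0)) := by
      apply pow_le_pow_right₀ (by norm_num)
      apply Nat.pow_le_pow_right (by norm_num)
      omega
    linarith
  obtain ⟨k, hk⟩ : ∃ k, N = k + 1 := ⟨N - 1, by omega⟩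
  have hkK : K0 ≤ k := by omega
  have hlow : (8:ℝ)^(16^(2*k)) ≤ Q := hNmin k (by omega)
  have hhigh : Q < (8:ℝ)^(16^(2*k+2)) := by
    rw [hk] at hN
    have e : 2*(k+1) = 2*k+2 := by ring
    rwa [e] at hN
  -- it suffices to bound one coordinate
  have hgoal : 1/(40*Q) ≤ ‖orbit AM q - η‖ := by
    rcases le_or_gt Q ((4:ℝ)^(16^(2*k+1))/80) with hc | hc
    · refine le_trans ?_ (norm_le_pi_norm (orbit AM q - η) 1)
      rw [Pi.sub_apply, orbit_one, h1, ← AddCircle.coe_sub]
      apply le_circle_norm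
      intro z
      exact safe (q 1) z (norm_q1 q) hlow hc
    · refine le_trans ?_ (norm_le_pi_norm (orbit AM q - η) 0)
      rw [Pi.sub_apply, orbit_zero]
      refine le_trans ?_ (window (hK0 k hkK) ((norm_q0 q).trans hhigh.le))
      have e : aa k = 16^(2*k+1) := rfl
      rw [e]
      have : (1/4:ℝ)^(16^(2*k+1)) = 1/(4:ℝ)^(16^(2*k+1)) := by rw [one_div, inv_pow, one_div]
      rw [this]
      have hpos : (0:ℝ) < (4:ℝ)^(16^(2*k+1)) := by positivity
      rw [mul_one_div, div_le_div_iff₀ (by positivity) hpos]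
      linarith
  calc (1/40:ℝ) = Q * (1/(40*Q)) := by field_simp
    _ ≤ Q * ‖orbit AM q - η‖ := mul_le_mul_of_nonneg_left hgoal (by linarith)

/-- the base point is well approximable -/
lemma xbase_not_mem : xbase ∉ Bad AM := by
  apply not_mem_Bad_of
  intro c hc R
  -- choose an even stage s
  obtain ⟨n, hn⟩ : ∃ n : ℕ, max (2 * R) (1/c) ≤ n := exists_nat_ge _
  set k := n + 1 with hk
  -- s = 2k = (2k-1)+1
  obtain ⟨s, hs⟩ : ∃ s, 2 * k = s + 1 := ⟨2*k-1, by omega⟩
  obtain ⟨hx1, hx2⟩ := x0_approx (2*k)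
  have hA : (AA (2*k)) % 2 = 0 := by rw [AA_parity]; push_cast; omega
  have hB : (BB (2*k)) % 2 = 0 := BB_parity _
  obtain ⟨A', hA'⟩ : ∃ z, AA (2*k) = 2 * z := ⟨AA (2*k) / 2, by omega⟩
  obtain ⟨B', hB'⟩ : ∃ z, BB (2*k) = 2 * z := ⟨BB (2*k) / 2, by omega⟩
  have hBge := BB_ge (2*k)
  have hBle := BB_le s
  rw [← hs] at hBle
  rw [hB'] at hBge hBle
  have hnorm : ‖(![0, -B'] : Fin 2 → ℤ)‖ = (B' : ℝ) := by
    have hB0 : 0 ≤ B' := by push_cast at hBge; omega
    apply le_antisymm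
    · rw [pi_norm_le_iff_of_nonneg (by exact_mod_cast hB0)]
      intro i
      fin_cases i
      · simp; exact_mod_cast hB0
      · simp [Int.norm_eq_abs, abs_of_nonneg (by exact_mod_cast hB0 : (0:ℝ) ≤ (B':ℝ))]
    · have := norm_le_pi_norm (![0, -B'] : Fin 2 → ℤ) 1
      simp [Int.norm_eq_abs] at this
      exact (le_abs_self _).trans this
  refine ⟨![0, -B'], ?_, ?_⟩
  · rw [hnorm]
    have h1 : (n : ℤ) ≤ B' := by push_cast at hBge; omega
    have h2 : (n : ℝ) ≤ (B' : ℝ) := by exact_mod_cast h1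
    have h3 : 2 * R ≤ n := le_trans (le_max_left _ _) hn
    have h4 : (0:ℝ) ≤ n := by positivity
    rcases le_or_gt R 0 with h | h
    · linarith
    · linarith
  · rw [hnorm]
    have hdist : ‖orbit AM ![0, -B'] - xbase‖ ≤ (1/4:ℝ)^(16^(2*k)) := by
      rw [pi_norm_le_iff_of_nonneg (by positivity)]
      intro i
      fin_cases i
      · show ‖(orbit AM ![0, -B'] - xbase) 0‖ ≤ _
        rw [Pi.sub_apply, orbit_zero]
        simp [xbase]
      · show ‖(orbit AM ![0, -B'] - xbase) 1‖ ≤ _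
        rw [Pi.sub_apply, orbit_one]
        have : xbase 1 = (x0 : UnitAddCircle) := by simp [xbase]
        rw [this, ← AddCircle.coe_sub]
        refine (circle_norm_le _ (-A')).trans ?_
        rw [hA', hB'] at hx1 hx2
        push_cast at hx1 hx2
        have e : ((![0, -B'] : Fin 2 → ℤ) 1 : ℝ) * √2 - x0 - ((-A' : ℤ) : ℝ) = -(x0 - 1/2 * (2 * (A':ℝ) - 2 * B' * √2)) := by
          simp
          ring
        rw [e, abs_neg, abs_of_nonneg hx1]
        exact hx2
    have hB0 : (0:ℝ) ≤ (B':ℝ) := by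
      have : 0 ≤ B' := by push_cast at hBge; omega
      exact_mod_cast this
    have hB1 : (B':ℝ) ≤ (8:ℝ)^(16^s) := by
      have : B' ≤ 8^(16^s) := by omega
      exact_mod_cast this
    calc (B':ℝ) * ‖orbit AM ![0, -B'] - xbase‖ ≤ (8:ℝ)^(16^s) * (1/4:ℝ)^(16^(2*k)) :=
          mul_le_mul hB1 hdist (norm_nonneg _) (by positivity)
      _ ≤ (1/2:ℝ)^(16^s) := by
        have e : 16^(2*k) = 16 * 16^s := by rw [hs]; ring
        rw [e]
        generalize 16^s = w
        have e2 : (1/4:ℝ)^(16*w) = (1/8)^w * (1/2)^w * (1/2)^(28*w) := by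
          rw [show (1/4:ℝ) = (1/2)^2 by norm_num, show (1/8:ℝ) = (1/2)^3 by norm_num, ← pow_mul, ← pow_mul, ← pow_add, ← pow_add]
          congr 1; ring
        rw [e2]
        have h3 : (8:ℝ)^w * (1/8)^w = 1 := by rw [← mul_pow]; norm_num
        have e3 : (8:ℝ)^w * ((1/8)^w * (1/2)^w * (1/2)^(28*w)) = (1/2)^w * (1/2)^(28*w) := by
          linear_combination ((1/2:ℝ)^w * (1/2)^(28*w)) * h3
        rw [e3]
        have : (1/2:ℝ)^(28*w) ≤ 1 := pow_le_one₀ (by norm_num) (by norm_num)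
        have h5 : (0:ℝ) ≤ (1/2:ℝ)^w := by positivity
        nlinarith
      _ ≤ c := by
        have h1 : 1/c ≤ n := le_trans (le_max_right _ _) hn
        have h2 : (n:ℝ) ≤ (2:ℝ)^(16^s) := by
          have h6 : n ≤ 16^s := by
            have : n ≤ s := by omega
            exact this.trans (Nat.lt_pow_self (by norm_num)).le
          have h7 : n ≤ 2^(16^s) := h6.trans (Nat.lt_pow_self (by norm_num)).le
          exact_mod_cast h7
        have h3 : 1/c ≤ (2:ℝ)^(16^s) := h1.trans h2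
        rw [one_div, inv_pow]
        rw [one_div] at h3
        exact inv_le_of_inv_le₀ hc h3

/-- the matrix is not singular -/
lemma not_singular : ¬ IsSingular AM := by
  intro h
  obtain ⟨T0, hT0⟩ := h (1/10) (by norm_num)
  obtain ⟨k, hk⟩ := pow_unbounded_of_one_lt (2 * T0) (by norm_num : (1:ℝ) < 2)
  have hka : (2:ℝ)^k ≤ 2^(aa k) := pow_le_pow_right₀ (by norm_num) (strictMono_aa.id_le k)
  set D : ℝ := 2^(aa k) with hD
  have hDpos : 0 < D := by positivity
  obtain ⟨q, hq0, hqT, hq⟩ := hT0 (D/2) (by linarith)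
  have e : (-(((2:ℕ):ℝ) / ((2:ℕ):ℝ))) = -1 := by norm_num
  rw [e, Real.rpow_neg_one] at hq
  have hq' : ‖orbit AM q‖ ≤ 1/(5*D) := by
    refine hq.trans (le_of_eq ?_)
    field_simp
    norm_num
  have hD2 : 2 ≤ D := by
    rw [hD]
    calc (2:ℝ) = 2^1 := by norm_num
      _ ≤ 2^(aa k) := by
        apply pow_le_pow_right₀ (by norm_num)
        unfold aa
        exact Nat.one_le_pow _ _ (by norm_num)
  rcases eq_or_ne (q 1) 0 with h1 | h1
  · -- q 0 ≠ 0
    have hq0' : q 0 ≠ 0 := by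
      intro h0
      have : q = 0 := by ext i; fin_cases i; exacts [h0, h1]
      rw [this, norm_zero] at hq0
      exact lt_irrefl _ hq0
    have h2 : 1/(2*D) ≤ ‖orbit AM q‖ := by
      refine le_trans ?_ (norm_le_pi_norm (orbit AM q) 0)
      rw [orbit_zero]
      apply le_circle_norm
      intro z
      by_contra hcon
      push Not at hcon
      obtain ⟨ha1, ha2⟩ := al_approx k
      rw [← hD] at ha1 ha2
      have hq0le : |(q 0:ℝ)| ≤ D/2 := (norm_q0 q).trans hqT
      -- |P q - z D| < 1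
      have h3 : |(PP k : ℝ) * q 0 - z * D| < 1 := by
        have e1 : (PP k : ℝ) * q 0 - z * D = D * (al * q 0 - z) - (D * al - PP k) * q 0 := by ring
        rw [e1]
        have h4 : |D * (al * q 0 - z)| < 1/2 := by
          rw [abs_mul, abs_of_pos hDpos]
          calc D * |al * q 0 - z| < D * (1/(2*D)) := mul_lt_mul_of_pos_left hcon hDpos
            _ = 1/2 := by field_simp
        have h5 : |(D * al - PP k) * q 0| ≤ 1/2 := by
          rw [abs_mul, abs_of_nonneg ha1]
          have haa1 : aa (k+1) = 256 * aa k := by rw [aa, aa]; ring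
          rw [haa1] at ha2
          calc (D * al - PP k) * |(q 0:ℝ)| ≤ (D * (2 * (1/2:ℝ)^(256 * aa k))) * (D/2) :=
                mul_le_mul ha2 hq0le (abs_nonneg _) (by positivity)
            _ = D * D * (1/2:ℝ)^(256 * aa k) := by ring
            _ ≤ 1/2 := by
              have e5 : (1/2:ℝ)^(256 * aa k) = (1/2)^(aa k) * (1/2)^(aa k) * (1/2)^(254 * aa k) := by
                rw [← pow_add, ← pow_add]; congr 1; ring
              have e6 : D * (1/2:ℝ)^(aa k) = 1 := by rw [hD, ← mul_pow]; norm_num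
              rw [e5]
              have e7 : D * D * ((1/2:ℝ)^(aa k) * (1/2)^(aa k) * (1/2)^(254 * aa k)) = (1/2)^(254 * aa k) := by
                linear_combination (D * (1/2:ℝ)^(aa k) * (1/2)^(254 * aa k) + (1/2)^(254 * aa k)) * e6
              rw [e7]
              calc (1/2:ℝ)^(254 * aa k) ≤ (1/2)^1 := by
                    apply pow_le_pow_of_le_one (by norm_num) (by norm_num)
                    have : 0 < aa k := by unfold aa; positivity
                    omega
                _ = 1/2 := by norm_num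
        calc |D * (al * q 0 - z) - (D * al - PP k) * q 0| ≤ |D * (al * q 0 - z)| + |(D * al - PP k) * q 0| := abs_sub _ _
          _ < 1 := by linarith
      have h4 : PP k * q 0 - z * 2^(aa k) = 0 := by
        have : |((PP k * q 0 - z * 2^(aa k) : ℤ) : ℝ)| < 1 := by push_cast; exact h3
        rw [← Int.cast_abs] at this
        have h5 : |PP k * q 0 - z * 2^(aa k)| < 1 := by exact_mod_cast this
        exact Int.abs_lt_one_iff.mp h5
      have h5 : (2:ℤ)^(aa k) ∣ PP k * q 0 := ⟨z, by linarith⟩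
      have h6 : IsCoprime ((2:ℤ)^(aa k)) (PP k) := by
        apply IsCoprime.pow_left
        have h8 := PP_odd k
        rw [Int.isCoprime_iff_gcd_eq_one]
        have h9 : Odd (PP k) := Int.odd_iff.mpr h8
        exact Int.isCoprime_iff_gcd_eq_one.mp (by
          rw [Int.isCoprime_iff_gcd_eq_one, Int.gcd_comm]
          exact Int.isCoprime_iff_gcd_eq_one.mp (Int.isCoprime_two_right.mpr h9))
      have h7 : (2:ℤ)^(aa k) ∣ q 0 := h6.dvd_of_dvd_mul_left h5
      have h8 : (2:ℤ)^(aa k) ≤ |q 0| := Int.le_of_dvd (abs_pos.mpr hq0') ((dvd_abs _ _).mpr h7)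
      have h9 : D ≤ |(q 0:ℝ)| := by
        have : ((2:ℤ)^(aa k) : ℝ) ≤ ((|q 0| : ℤ) : ℝ) := by exact_mod_cast h8
        push_cast at this
        exact this
      linarith
    have h3 : 1/(5*D) < 1/(2*D) := by
      apply one_div_lt_one_div_of_lt (by positivity)
      linarith
    linarith
  · have h2 : 1/(1 + 3*|(q 1:ℝ)|) ≤ ‖orbit AM q‖ := by
      refine le_trans ?_ (norm_le_pi_norm (orbit AM q) 1)
      rw [orbit_one]
      apply le_circle_norm
      intro z
      exact sqrt2_bad h1 z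
    have h3 : 1/(5*D) < 1/(1 + 3*|(q 1:ℝ)|) := by
      apply one_div_lt_one_div_of_lt (by positivity)
      have := (norm_q1 q).trans hqT
      linarith
    linarith

/-- the circle `𝕋 × {0}` -/
def HH : AddSubgroup (Torus 2) where
  carrier := {η | η 1 = 0}
  add_mem' := by
    intro a b ha hb
    simp only [Set.mem_ofPred_eq, Pi.add_apply] at *
    rw [ha, hb, add_zero]
  zero_mem' := by simp
  neg_mem' := by
    intro a ha
    simp only [Set.mem_ofPred_eq, Pi.neg_apply] at *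
    rw [ha, neg_zero]

lemma mem_HH {η : Torus 2} : η ∈ HH ↔ η 1 = 0 := by
  rfl

lemma HH_closed : IsClosed (HH : Set (Torus 2)) := by
  have : (HH : Set (Torus 2)) = (fun η : Torus 2 => η 1) ⁻¹' {0} := by
    ext η
    simp [mem_HH]
  rw [this]
  exact isClosed_singleton.preimage (continuous_apply 1)

lemma lieAlg_HH : lieAlg HH = Submodule.span ℝ {(![1, 0] : Fin 2 → ℝ)} := by
  ext v
  rw [Submodule.mem_span_singleton]
  constructor
  · intro hv
    have hv' : ∀ s : ℝ, ((s * v 1 : ℝ) : UnitAddCircle) = 0 := by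
      intro s
      have := hv s
      rw [mem_HH] at this
      simpa [toTorus] using this
    have hv1 : v 1 = 0 := by
      by_contra hne
      have h := hv' (1/(2 * v 1))
      have e : 1/(2 * v 1) * v 1 = 1/2 := by field_simp
      rw [e] at h
      have h2 : ‖((1/2 : ℝ) : UnitAddCircle)‖ = 0 := by rw [h, norm_zero]
      rw [UnitAddCircle.norm_eq] at h2
      have h3 : (1/2 : ℝ) - round (1/2 : ℝ) = 0 := abs_eq_zero.mp h2
      have h4 : ((2 * round (1/2:ℝ) : ℤ) : ℝ) = ((1 : ℤ) : ℝ) := by push_cast; linarith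
      have h5 : 2 * round (1/2:ℝ) = 1 := by exact_mod_cast h4
      omega
    refine ⟨v 0, ?_⟩
    ext i
    fin_cases i
    · simp
    · simp [hv1]
  · rintro ⟨c, rfl⟩
    intro s
    rw [mem_HH]
    simp [toTorus]

lemma dim_HH : dimSubgroup HH = 1 := by
  rw [dimSubgroup, lieAlg_HH]
  apply finrank_span_singleton
  intro h
  have := congrFun h 0
  simp at this

/-- inclusion of the circle -/
def incl : UnitAddCircle →+ HH where
  toFun t := ⟨![t, 0], by rw [mem_HH]; simp⟩
  map_zero' := by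
    ext i; fin_cases i <;> simp
  map_add' a b := by
    ext i; fin_cases i <;> simp

lemma incl_continuous : Continuous incl := by
  apply Continuous.subtype_mk
  apply continuous_pi
  intro i
  fin_cases i
  · simp; exact continuous_id
  · simp; exact continuous_const

lemma incl_surj : Function.Surjective incl := by
  rintro ⟨η, hη⟩
  refine ⟨η 0, ?_⟩
  ext i
  fin_cases i
  · simp [incl]
  · simp [incl]; exact (mem_HH.mp hη).symm

instance : IsProbabilityMeasure (volume : Measure UnitAddCircle) := ⟨by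
  rw [AddCircle.measure_univ]; simp⟩

/-- the Haar probability measure on `HH` -/
noncomputable def nuH : Measure HH := (volume : Measure UnitAddCircle).map incl

/-- the set of good targets in the coset -/
def Good : Set (Torus 2) :=
  {η | η 1 = (x0 : UnitAddCircle)} ∩ ⋃ N : ℕ, ⋂ k : ℕ, ⋂ _ : N ≤ k,
    {η | 4 * (1/2:ℝ)^(aa k) ≤ ‖(2^(aa k) : ℕ) • (η 0)‖}

lemma Good_meas : MeasurableSet Good := by
  apply MeasurableSet.inter
  · have : {η : Torus 2 | η 1 = (x0 : UnitAddCircle)} = (fun η : Torus 2 => η 1) ⁻¹' {(x0 : UnitAddCircle)} := by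
      ext η; simp
    rw [this]
    exact (isClosed_singleton.preimage (continuous_apply 1)).measurableSet
  · apply MeasurableSet.iUnion
    intro N
    apply MeasurableSet.iInter
    intro k
    apply MeasurableSet.iInter
    intro _
    apply IsClosed.measurableSet
    apply isClosed_le continuous_const
    exact continuous_norm.comp ((continuous_const_smul (2^(aa k) : ℕ)).comp (continuous_apply 0))

lemma Good_sub : Good ⊆ Bad AM := by
  intro η hη
  obtain ⟨h1, h2⟩ := hη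
  rw [Set.mem_iUnion] at h2
  obtain ⟨N, hN⟩ := h2
  apply good_mem_Bad h1
  rw [eventually_atTop]
  refine ⟨N, fun k hk => ?_⟩
  rw [Set.mem_iInter] at hN
  have := hN k
  rw [Set.mem_iInter] at this
  exact this hk

/-- the algebraic measure -/
noncomputable def mu : Measure (Torus 2) := nuH.map (fun h : HH => xbase + (h : Torus 2))

lemma trans_continuous : Continuous (fun h : HH => xbase + (h : Torus 2)) :=
  continuous_const.add continuous_subtype_val

instance : IsProbabilityMeasure nuH := Measure.isProbabilityMeasure_map incl_continuous.measurable.aemeasurable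

instance : IsProbabilityMeasure mu := Measure.isProbabilityMeasure_map trans_continuous.measurable.aemeasurable

lemma mu_bad_compl : mu (Bad AM)ᶜ = 0 := by
  have h1 : mu Goodᶜ = 0 := by
    rw [mu, nuH, Measure.map_map trans_continuous.measurable incl_continuous.measurable,
      Measure.map_apply (trans_continuous.comp incl_continuous).measurable Good_meas.compl]
    have h2 := ae_good
    rw [← compl_mem_ae_iff, Set.preimage_compl, compl_compl]
    filter_upwards [h2] with t ht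
    constructor
    · simp [xbase, incl]
    · rw [Set.mem_iUnion]
      rw [eventually_atTop] at ht
      obtain ⟨N, hN⟩ := ht
      refine ⟨N, ?_⟩
      rw [Set.mem_iInter]
      intro k
      rw [Set.mem_iInter]
      intro hk
      have := hN k hk
      simpa [xbase, incl] using this
  exact measure_mono_null (Set.compl_subset_compl.mpr Good_sub) h1

/-- **Q1 has a positive answer.** There are a non-singular real `2 × 2` matrix `A` (so `m = n = 2`)
and a one-dimensional algebraic measure `μ` on `𝕋²`, the Haar probability measure on a coset `x + H`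
of a closed one-dimensional subgroup `H`, such that `μ(Bad_A) > 0` (in fact the complement of
`Bad_A` is `μ`-null), while the support `x + H` of `μ` is not contained in `Bad_A`. -/
theorem result :
    ∃ (A : Matrix (Fin 2) (Fin 2) ℝ) (μ : Measure (Torus 2)) (x : Torus 2)
      (H : AddSubgroup (Torus 2)),
      ¬ IsSingular A ∧ IsAlgebraicMeasureOn μ x H ∧ dimSubgroup H = 1 ∧
      0 < μ (Bad A) ∧ μ (Bad A)ᶜ = 0 ∧ ¬ ({η | ∃ h ∈ H, η = x + h} ⊆ Bad A) := by
  refine ⟨AM, mu, xbase, HH, not_singular, ⟨HH_closed, nuH, ?_, inferInstance, rfl⟩, dim_HH,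
    ?_, mu_bad_compl, ?_⟩
  · exact Measure.isAddHaarMeasure_map_of_isFiniteMeasure volume incl incl_continuous incl_surj
  · have h1 : (1 : ENNReal) ≤ mu (Bad AM) + mu (Bad AM)ᶜ := by
      calc (1 : ENNReal) = mu Set.univ := (measure_univ).symm
        _ ≤ mu (Bad AM ∪ (Bad AM)ᶜ) := by rw [Set.union_compl_self]
        _ ≤ _ := measure_union_le _ _
    rw [mu_bad_compl, add_zero] at h1
    exact lt_of_lt_of_le one_pos h1
  · intro h
    apply xbase_not_mem
    apply h
    exact ⟨0, HH.zero_mem, by rw [add_zero]⟩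

end Pool.Agent.Results.MP_f446af_nt.OneDimCoset
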